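import Pool.Agent.T9h37.DP.Grow

set_option autoImplicit false

/-!
# Minimal special prime divisors
-/

namespace Pool.Agent.T9h37.DP

open MvPolynomial Pool.Agent.W609 Pool.Agent.W609.CR Pool.Agent.TH167.SH Pool.Agent.TH167.TT
  Pool.Agent.TH167.DD Pool.Agent.TH167.T3 Pool.Agent.H248R5 Pool.Agent.H248R6 Pool.Agent.N108.ZZ
  Pool.Agent.TH167.CL

/-- All points with `w i ≤ t i` can be forgotten. -/
theorem sp_forget {K : Type} [Field K] [CharZero K] [IsAlgClosed K] {r e : ℕ}
    {w : Fin (r + 4) → ℕ} {P : Fin (r + 4) → Fin 2 → K}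
    (hP : AlgebraicIndependent ℚ (fun ij : Fin (r + 4) × Fin 2 => P ij.1 ij.2))
    {G : MvPolynomial (Fin 3) K} (hG : Irreducible G) (hGe : G.IsHomogeneous e)
    (hord : ∀ j, Ord (aff (P j)) (w j) G) (S : Finset (Fin (r + 4)))
    (hS : ∀ i, i ∉ S → w i ≤ max 2 (rk P e w i)) : sp P e (rs S w) = sp P e w := by
  have h1 := sp_le2 hP hG hGe hord S
  have h2 := sp_mono P e (rs_le S w)
  have h3 : ∑ j, (if j ∈ S then 0 else (w j + 1 - max 2 (rk P e w j)).choose 2) = 0 := by
    refine Finset.sum_eq_zero fun j _ => ?_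
    split_ifs with hj
    · rfl
    · have := hS j hj
      exact Nat.choose_eq_zero_of_lt (by omega)
  rw [h3] at h1
  push_cast at h1
  linarith

/-- **Minimal special prime divisors.** -/
theorem minimal {K : Type} [Field K] [CharZero K] [IsAlgClosed K] : ∀ (n r : ℕ), r ≤ n →
    ∀ (e : ℕ) (w : Fin (r + 4) → ℕ) (P : Fin (r + 4) → Fin 2 → K),
    AlgebraicIndependent ℚ (fun ij : Fin (r + 4) × Fin 2 => P ij.1 ij.2) →
    ∀ (G : MvPolynomial (Fin 3) K), Irreducible G → G.IsHomogeneous e →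
    (∀ j, Ord (aff (P j)) (w j) G) → sp P e w ≠ 0 →
    ∃ (m : ℕ) (Q : Fin (m + 4) → Fin 2 → K) (e1 : ℕ) (u : Fin (m + 4) → ℕ)
      (G1 : MvPolynomial (Fin 3) K),
      AlgebraicIndependent ℚ (fun ij : Fin (m + 4) × Fin 2 => Q ij.1 ij.2) ∧ Irreducible G1 ∧
      G1.IsHomogeneous e1 ∧ (∀ j, Ord (aff (Q j)) (u j) G1) ∧ sp Q e1 u = sp P e w ∧
      Reduced e1 u ∧ (∀ i, max 2 (rk Q e1 u i) < u i) ∧ 10 ≤ m + 4 ∧ 3 * e1 + 6 ≤ ∑ i, u i ∧
      e1 ≤ e ∧ ∃ f : Fin (m + 4) → Fin (r + 4), Function.Injective f ∧ ∀ i, u i ≤ w (f i) := by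
  classical
  intro n
  induction n with
  | zero =>
    intro r hr e w P hP G hG hGe hord hne
    exfalso
    apply hne
    have h1 := (prime9 (S := Finset.univ) (by
      rw [Finset.card_univ, Fintype.card_fin]
      omega) (fun j hj => absurd (Finset.mem_univ j) hj) hP hG hGe hord).1
    unfold sp
    rw [h1, sub_self]
  | succ n ih =>
    intro r hr e w P hP G hG hGe hord hne
    rcases irr_red e P hP w G hG hGe hord with ⟨c1, c2, c3⟩ |
      ⟨P1, e1, u, G1, b1, b2, b3, b4, b5, b6, b7, b8, b9⟩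
    · exfalso
      apply hne
      unfold sp
      rw [c1, sub_self]
    obtain ⟨q1, q2, q3⟩ := quad_inv b5
    simp only at q1 q2 q3
    have hsp : sp P1 e1 u = sp P e w := by
      unfold sp
      rw [b9, q1]
    have hsum : 3 * e1 + 6 ≤ ∑ i, u i := by
      by_contra hcon
      apply hne
      rw [← hsp]
      have h1 := prime_stm (κ := 5) (stm_all 5 le_rfl) b1 b2 b3 b4 (by
        rw [kk_cast]
        have : ((∑ j, u j : ℕ) : ℤ) ≤ ((3 * e1 + 5 : ℕ) : ℤ) := by
          have h2 : ∑ j, u j ≤ 3 * e1 + 5 := by omega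
          exact_mod_cast h2
        push_cast at this ⊢
        linarith)
      unfold sp
      rw [h1, sub_self]
    obtain ⟨B, hB⟩ : ∃ B : Finset (Fin (r + 4)),
      B = Finset.univ.filter fun i => max 2 (rk P1 e1 u i) < u i := ⟨_, rfl⟩
    have hBm : ∀ i, i ∈ B ↔ max 2 (rk P1 e1 u i) < u i := fun i => by
      rw [hB, Finset.mem_filter]
      simp
    have hforget := sp_forget b1 b2 b3 b4 B (fun i hi => by
      rw [hBm] at hi
      omega)
    by_cases hall : B = Finset.univ
    · have h10 : 10 ≤ r + 4 := by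
        by_contra hcon
        apply hne
        rw [← hsp]
        have h1 := (prime9 (S := Finset.univ) (by
          rw [Finset.card_univ, Fintype.card_fin]
          omega) (fun j hj => absurd (Finset.mem_univ j) hj) b1 b2 b3 b4).1
        unfold sp
        rw [h1, sub_self]
      exact ⟨r, P1, e1, u, G1, b1, b2, b3, b4, hsp, b6, fun i => (hBm i).1 (by
        rw [hall]
        exact Finset.mem_univ i), h10, hsum, b8, id, Function.injective_id, b7⟩
    · have hcard : B.card < r + 4 := by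
        have h1 : B ⊂ Finset.univ := Finset.ssubset_univ_iff.2 hall
        have h2 := Finset.card_lt_card h1
        rwa [Finset.card_univ, Fintype.card_fin] at h2
      have h4 : 4 ≤ B.card := by
        by_contra hcon
        apply hne
        rw [← hsp, ← hforget]
        exact sp_rs_zero (κ := 5) (stm_all 5 le_rfl) (by norm_num) b1 b2 b3 b4 B
          (sum_four b1 b2 b3 b4 (by omega))
      obtain ⟨m, hm⟩ : ∃ m, B.card = m + 4 := ⟨B.card - 4, by omega⟩
      obtain ⟨en, hen, henB⟩ := exists_enum B hm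
      have hsp2 : sp (fun i => P1 (en i)) e1 (fun i => u (en i)) = sp P e w := by
        rw [← sp_enum hen henB, hforget, hsp]
      obtain ⟨m', Q, e2, v, G2, d1, d2, d3, d4, d5, d6, d7, d8, d9, d10, f, d11, d12⟩ :=
        ih m (by omega) e1 (fun i => u (en i)) (fun i => P1 (en i)) (gen_enum hen b1) G1 b2 b3
          (fun j => b4 (en j)) (by rw [hsp2]; exact hne)
      exact ⟨m', Q, e2, v, G2, d1, d2, d3, d4, d5.trans hsp2, d6, d7, d8, d9, d10.trans b8,
        fun i => en (f i), fun a b hab => d11 (hen hab), fun i => (d12 i).trans (b7 _)⟩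

end Pool.Agent.T9h37.DP
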