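import Pool.Agent.T9h37.DP.Forget
import Pool.Agent.Results.MP_d3128a_ag.CanonicalDegreeFive

set_option autoImplicit false

/-!
# The finite reduction
-/

namespace Pool.Agent.T9h37.DP

open Pool.Agent.N108.ZZ Pool.Agent.TH167.SH Pool.Agent.H932R3 Pool.Agent.W609 Pool.Agent.W609.CR
open Pool.Agent.Results.MP_d3128a_ag.CanonicalDegreeFive (Remaining NonSpecial)

/-- All standard classes with `K D ≤ κ` are nonspecial if the finitely many remaining ones are. -/
theorem stm_of_remaining (κ : ℕ)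
    (H : ∀ c, 6 ≤ c → c ≤ κ → ∀ (r d : ℕ) (m : Fin (r + 4) → ℕ), Remaining c r d m →
      NonSpecial r d m) : Stm κ := by
  refine stm_of_bnd κ fun c hc1 hc2 r K _ _ P hP d w σ v t hv hv1 hv2 hcls => ?_
  obtain ⟨a1, a2, a3, a4, a5, a6, a7, a8, a9⟩ := hcls
  -- the nonzero multiplicities
  have hex : ∃ k, v k = 0 := ⟨r + 4, hv2 _ le_rfl⟩
  obtain ⟨n', hn1, hn2⟩ : ∃ n', v n' = 0 ∧ ∀ k, k < n' → v k ≠ 0 := by
    classical
    exact ⟨Nat.find hex, Nat.find_spec hex, fun k hk => Nat.find_min hex hk⟩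
  have h10 : 10 ≤ n' := by
    by_contra hcon
    have := hv (show n' ≤ 9 by omega)
    omega
  have hn' : n' ≤ r + 4 := by
    by_contra hcon
    exact hn2 (r + 4) (by omega) (hv2 _ le_rfl)
  obtain ⟨r', rfl⟩ : ∃ r', n' = r' + 4 := ⟨n' - 4, by omega⟩
  have hz : ∀ k, r' + 4 ≤ k → v k = 0 := fun k hk => by
    have := hv hk
    omega
  have hsum : ∀ f : ℕ → ℕ, f 0 = 0 →
      ∑ k ∈ Finset.range (r + 4), f (v k) = ∑ i : Fin (r' + 4), f (v i) := by
    intro f hf
    rw [← Finset.sum_range (fun k => f (v k))]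
    symm
    refine Finset.sum_subset (fun k hk => ?_) fun k _ hk => ?_
    · rw [Finset.mem_range] at hk ⊢
      omega
    · rw [Finset.mem_range, not_lt] at hk
      rw [hz k hk, hf]
  obtain ⟨m', hm'⟩ : ∃ m' : Fin (r' + 4) → ℕ, m' = fun i : Fin (r' + 4) => v i := ⟨_, rfl⟩
  have v0 : ((0 : Fin (r' + 4)) : ℕ) = 0 := rfl
  have v1 : ((1 : Fin (r' + 4)) : ℕ) = 1 := Nat.mod_eq_of_lt (show 1 < r' + 4 by omega)
  have v2 : ((2 : Fin (r' + 4)) : ℕ) = 2 := Nat.mod_eq_of_lt (show 2 < r' + 4 by omega)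
  have hrem : Remaining c r' d m' := by
    rw [hm']
    refine ⟨by omega, fun i j hij => hv hij, fun i => ?_, fun i hi => ?_, ?_, ?_, a3, t, ?_, a7,
      a8, ?_⟩
    · have e1 := hn2 i i.2
      have e2 := a4 i
      show 2 ≤ v i
      omega
    · have := hv hi
      show 3 ≤ v i
      omega
    · show v ((0 : Fin (r' + 4)) : ℕ) + v ((1 : Fin (r' + 4)) : ℕ) + v ((2 : Fin (r' + 4)) : ℕ) ≤ d
      rw [v0, v1, v2]
      exact a1
    · rw [← a2]
      exact (hsum (fun x => x) rfl).symm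
    · rw [← a6]
      congr 1
      rw [← Finset.sum_range (fun k => if k < 9 then v k else 0), ← Finset.sum_filter]
      refine Finset.sum_congr ?_ fun _ _ => rfl
      ext k
      rw [Finset.mem_filter, Finset.mem_range, Finset.mem_range]
      omega
    · have := hsum (fun x => (x + 1).choose 2) rfl
      rw [this] at a9
      exact a9
  have hns := H c hc1 hc2 r' d m' hrem
  -- generic points over the complex numbers
  have hC : ∀ P : Fin (r' + 4) → Fin 2 → ℂ,
      AlgebraicIndependent ℚ (fun ij : Fin (r' + 4) × Fin 2 => P ij.1 ij.2) →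
      (Module.finrank ℂ ↥(Pool.Agent.TH167.SHDefs.sys P d m') : ℤ) = max 0 (chi d m') := by
    refine (Pool.Agent.N108.SG.Lv.gen_iff d m' _).1 ?_
    obtain ⟨F, hF, hF'⟩ := hns
    refine ⟨F, hF, fun P hP => ?_⟩
    have h1 := hF' P hP
    have h2 := (Pool.Agent.N108.SG.Lv.expDim_iff P d m').1 h1
    rw [← sys_eq] at h2
    exact h2
  have hC' := transfer (K := K) (P := fun i : Fin (r' + 4) => P (σ ⟨i, by omega⟩))
    (fun P hP => by rw [← sys_eq]; exact hC P hP) (by
      have := hP.comp (fun ij : Fin (r' + 4) × Fin 2 =>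
        (σ (⟨ij.1, by omega⟩ : Fin (r + 4)), ij.2)) (by
          intro a b hab
          simp only [Prod.mk.injEq] at hab
          have e1 := σ.injective hab.1
          simp only [Fin.mk.injEq] at e1
          exact Prod.ext (Fin.ext e1) hab.2)
      exact this)
  rw [trunc (n' := r' + 4) hn' hv1 hz]
  rw [hm'] at hC'
  rw [hC']
  have hchi : chi d w = chi d m' := by
    rw [chi_cast, chi_cast, hm', ← Pool.Agent.N108.SG.sum_sorted hv1 fun x => (x + 1).choose 2,
      hsum (fun x => (x + 1).choose 2) rfl]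
  rw [hchi, hm']

end Pool.Agent.T9h37.DP
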