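import Pool.Agent.T9h37.DP.Main
import Pool.Agent.TH167.CL.Neg

set_option autoImplicit false

/-!
# Prime divisors: the change of the first cohomology if points are forgotten
-/

namespace Pool.Agent.T9h37.DP

open MvPolynomial Pool.Agent.W609 Pool.Agent.W609.CR Pool.Agent.TH167.SH Pool.Agent.TH167.TT
  Pool.Agent.TH167.DD Pool.Agent.TH167.T3 Pool.Agent.H248R5 Pool.Agent.N108.ZZ

/-- The superabundance. -/
noncomputable def sp {K : Type} [Field K] {s : ℕ} (P : Fin s → Fin 2 → K) (d : ℕ) (w : Fin s → ℕ) :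
    ℤ := (Module.finrank K ↥(VS (fun j => aff (P j)) w d) : ℤ) - chi d w

theorem sp_mono {K : Type} [Field K] {s : ℕ} (P : Fin s → Fin 2 → K) (d : ℕ) {w w' : Fin s → ℕ}
    (h : ∀ j, w j ≤ w' j) : sp P d w ≤ sp P d w' := by
  have h1 := mono P d _ w w' h rfl
  unfold sp
  rw [chi_cast, chi_cast]
  have h2 : ((Module.finrank K ↥(VS (fun j => aff (P j)) w d) + ∑ j, (w j + 1).choose 2 : ℕ) : ℤ) ≤
      ((Module.finrank K ↥(VS (fun j => aff (P j)) w' d) + ∑ j, (w' j + 1).choose 2 : ℕ) : ℤ) := by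
    exact_mod_cast h1
  rw [Nat.cast_add, Nat.cast_add] at h2
  linarith

theorem sp_nonneg {K : Type} [Field K] {s : ℕ} (P : Fin s → Fin 2 → K) (d : ℕ) (w : Fin s → ℕ) :
    0 ≤ sp P d w := by
  have := chi_le_dim P d w
  unfold sp
  linarith

theorem rs_le {s : ℕ} (S : Finset (Fin s)) (w : Fin s → ℕ) (j : Fin s) : rs S w j ≤ w j := by
  unfold rs
  split_ifs
  · exact le_rfl
  · exact Nat.zero_le _

theorem rs_mono {s : ℕ} {S T : Finset (Fin s)} (h : S ⊆ T) (w : Fin s → ℕ) (j : Fin s) :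
    rs S w j ≤ rs T w j := by
  unfold rs
  by_cases hj : j ∈ S
  · rw [if_pos hj, if_pos (h hj)]
  · rw [if_neg hj]
    exact Nat.zero_le _

theorem chi_rs {s : ℕ} (S : Finset (Fin s)) (w : Fin s → ℕ) (d : ℕ) :
    chi d (rs S w) = ((d + 2).choose 2 : ℤ) - ((∑ j ∈ S, (w j + 1).choose 2 : ℕ) : ℤ) := by
  classical
  rw [chi_cast]
  congr 2
  rw [← Finset.sum_filter_add_sum_filter_not Finset.univ (fun j => j ∈ S)
    (fun j => (rs S w j + 1).choose 2)]
  have h1 : ∑ j ∈ Finset.univ.filter (fun j => j ∉ S), (rs S w j + 1).choose 2 = 0 := by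
    refine Finset.sum_eq_zero fun j hj => ?_
    unfold rs
    rw [if_neg (Finset.mem_filter.1 hj).2]
    rfl
  have h2 : Finset.univ.filter (fun j => j ∈ S) = S := by
    ext j
    simp
  rw [h1, add_zero, h2]
  refine Finset.sum_congr rfl fun j hj => ?_
  unfold rs
  rw [if_pos hj]

/-- Forgetting points. -/
theorem sp_le {K : Type} [Field K] [CharZero K] [IsAlgClosed K] {r e : ℕ}
    {w : Fin (r + 4) → ℕ} {P : Fin (r + 4) → Fin 2 → K}
    (hP : AlgebraicIndependent ℚ (fun ij : Fin (r + 4) × Fin 2 => P ij.1 ij.2))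
    {G : MvPolynomial (Fin 3) K} (hG : Irreducible G) (hGe : G.IsHomogeneous e)
    (hord : ∀ j, Ord (aff (P j)) (w j) G) (S : Finset (Fin (r + 4))) :
    sp P e w ≤ sp P e (rs S w) + ((∑ j, (if j ∈ S then 0 else (w j - 1).choose 2) : ℕ) : ℤ) := by
  classical
  rcases Nat.lt_or_ge e 2 with he | he
  · have he0 := deg_pos hG hGe
    have h1 := (prime9 (S := ∅) (by simp) (fun j _ => by
      have := van_le hG.ne_zero hGe (hord j).1
      omega) hP hG hGe hord).1
    have h2 : sp P e w = 0 := by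
      unfold sp
      rw [h1, sub_self]
    have h3 := sp_nonneg P e (rs S w)
    have : (0 : ℤ) ≤ ((∑ j, (if j ∈ S then 0 else (w j - 1).choose 2) : ℕ) : ℤ) :=
      Int.natCast_nonneg _
    linarith
  have hGm : G ∈ VS (fun j => aff (P j)) w e := (mem_VS _ _ _ _).2 ⟨hGe, fun j => (hord j).1⟩
  have h1 := drop he hP hG S (∑ j, (if j ∈ S then 0 else w j)) w le_rfl hGm
  unfold sp
  rw [chi_rs, chi_cast]
  have h3 : ∑ j, (w j + 1).choose 2 =
      ∑ j ∈ S, (w j + 1).choose 2 + ∑ j, (if j ∈ S then 0 else 2 * w j - 1) +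
        ∑ j, (if j ∈ S then 0 else (w j - 1).choose 2) := by
    have h4 : ∑ j ∈ S, (w j + 1).choose 2 = ∑ j, (if j ∈ S then (w j + 1).choose 2 else 0) := by
      rw [← Finset.sum_filter]
      congr 1
      ext j
      simp
    rw [h4, ← Finset.sum_add_distrib, ← Finset.sum_add_distrib]
    refine Finset.sum_congr rfl fun j _ => ?_
    have h5 := ch_two (w j)
    split_ifs <;> omega
  omega

/-- The class of the image on the blow-up at the points of `S`. -/
theorem sp_rs_zero {κ : ℕ} (hSt : Stm κ) (hκ : 3 ≤ κ) {K : Type} [Field K] [CharZero K]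
    [IsAlgClosed K] {r e : ℕ} {w : Fin (r + 4) → ℕ} {P : Fin (r + 4) → Fin 2 → K}
    (hP : AlgebraicIndependent ℚ (fun ij : Fin (r + 4) × Fin 2 => P ij.1 ij.2))
    {G : MvPolynomial (Fin 3) K} (hG : Irreducible G) (hGe : G.IsHomogeneous e)
    (hord : ∀ j, Ord (aff (P j)) (w j) G) (S : Finset (Fin (r + 4)))
    (hsum : ∑ j ∈ S, w j ≤ 3 * e + κ) : sp P e (rs S w) = 0 := by
  classical
  obtain ⟨T, hST, hT4, hTs⟩ := exists_four hκ hP hG hGe hord S hsum
  obtain ⟨m, hm⟩ : ∃ m, T.card = m + 4 := ⟨T.card - 4, by omega⟩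
  obtain ⟨en, hen, henT⟩ := exists_enum T hm
  have hP' : AlgebraicIndependent ℚ (fun ij : Fin (m + 4) × Fin 2 => P (en ij.1) ij.2) :=
    hP.comp (fun ij : Fin (m + 4) × Fin 2 => (en ij.1, ij.2)) (by
      rintro ⟨a, b⟩ ⟨a', b'⟩ h
      simp only [Prod.mk.injEq] at h
      exact Prod.ext (hen h.1) h.2)
  have h2 := prime_stm hSt (P := fun i => P (en i)) (w := fun i => w (en i)) hP' hG hGe
    (fun i => hord (en i)) (by
      rw [kk_cast, sum_enum hen henT w]
      have : ((∑ j ∈ T, w j : ℕ) : ℤ) ≤ ((3 * e + κ : ℕ) : ℤ) := by exact_mod_cast hTs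
      push_cast at this ⊢
      linarith)
  rw [← vs_enum henT P w e, chi_enum hen henT, ← chi_rs] at h2
  have h3 : sp P e (rs T w) = 0 := by
    unfold sp
    rw [h2, sub_self]
  have h4 := sp_mono P e (rs_mono hST w)
  have h5 := sp_nonneg P e (rs S w)
  linarith

/-- Reindexing. -/
theorem sp_enum {K : Type} [Field K] {s m : ℕ} {S : Finset (Fin s)} {e : Fin m → Fin s}
    (he : Function.Injective e) (hS : ∀ j, j ∈ S ↔ ∃ i, e i = j) (P : Fin s → Fin 2 → K)
    (w : Fin s → ℕ) (d : ℕ) :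
    sp P d (rs S w) = sp (fun i => P (e i)) d (fun i => w (e i)) := by
  unfold sp
  rw [vs_enum hS P w d, chi_enum he hS, chi_rs]

/-- Generic subsets. -/
theorem gen_enum {K : Type} [Field K] [CharZero K] {s m : ℕ} {e : Fin m → Fin s}
    (he : Function.Injective e) {P : Fin s → Fin 2 → K}
    (hP : AlgebraicIndependent ℚ (fun ij : Fin s × Fin 2 => P ij.1 ij.2)) :
    AlgebraicIndependent ℚ (fun ij : Fin m × Fin 2 => P (e ij.1) ij.2) :=
  hP.comp (fun ij : Fin m × Fin 2 => (e ij.1, ij.2)) (by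
    rintro ⟨a, b⟩ ⟨a', b'⟩ h
    simp only [Prod.mk.injEq] at h
    exact Prod.ext (he h.1) h.2)

/-- The sum over a set of at most four points. -/
theorem sum_four {K : Type} [Field K] [CharZero K] {r e : ℕ}
    {w : Fin (r + 4) → ℕ} {P : Fin (r + 4) → Fin 2 → K}
    (hP : AlgebraicIndependent ℚ (fun ij : Fin (r + 4) × Fin 2 => P ij.1 ij.2))
    {G : MvPolynomial (Fin 3) K} (hG : Irreducible G) (hGe : G.IsHomogeneous e)
    (hord : ∀ j, Ord (aff (P j)) (w j) G) {S : Finset (Fin (r + 4))} (hS : S.card ≤ 4) :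
    ∑ j ∈ S, w j ≤ 3 * e + 5 := by
  classical
  rcases Pool.Agent.TH167.RD.pos9 (show S.card ≤ 9 by omega) hP hG hGe hord with h1 | ⟨h1, -⟩
  · omega
  · have h2 : ∑ j ∈ S, w j ≤ S.card • 3 := Finset.sum_le_card_nsmul S w 3 fun j _ => by
      have := van_le hG.ne_zero hGe (hord j).1
      omega
    simp only [smul_eq_mul] at h2
    omega

/-- The dichotomy of Clifford for a prime divisor and a set `S` of points. -/
theorem clifford {K : Type} [Field K] [CharZero K] [IsAlgClosed K] {r e : ℕ}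
    {w : Fin (r + 4) → ℕ} {P : Fin (r + 4) → Fin 2 → K}
    (hP : AlgebraicIndependent ℚ (fun ij : Fin (r + 4) × Fin 2 => P ij.1 ij.2))
    {G : MvPolynomial (Fin 3) K} (hG : Irreducible G) (hGe : G.IsHomogeneous e)
    (hord : ∀ j, Ord (aff (P j)) (w j) G) (S : Finset (Fin (r + 4)))
    (hne : 2 ≤ Module.finrank K ↥(VS (fun j => aff (P j)) w e) ∨ ∃ j, j ∉ S ∧ w j ≠ 0) :
    sp P e w ≤ ((∑ j, (if j ∈ S then 0 else w j - 2) : ℕ) : ℤ) ∨
      2 * (Module.finrank K ↥(VS (fun j => aff (P j)) w e) : ℤ) +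
        2 * ((∑ j, (if j ∈ S then 0 else min (w j) 2) : ℕ) : ℤ) ≤
        ip e w e w + ((∑ j, (if j ∈ S then 0 else w j) : ℕ) : ℤ) + 4 := by
  classical
  rcases Nat.lt_or_ge e 2 with he | he
  · left
    have he0 := deg_pos hG hGe
    have h1 := (prime9 (S := ∅) (by simp) (fun j _ => by
      have := van_le hG.ne_zero hGe (hord j).1
      omega) hP hG hGe hord).1
    unfold sp
    rw [h1, sub_self]
    exact Int.natCast_nonneg _
  have hGm : G ∈ VS (fun j => aff (P j)) w e := (mem_VS _ _ _ _).2 ⟨hGe, fun j => (hord j).1⟩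
  have hpos := pos_of_mem hGm hG.ne_zero
  obtain ⟨n, hn⟩ : ∃ n, Module.finrank K ↥(VS (fun j => aff (P j)) w e) = n + 1 :=
    ⟨Module.finrank K ↥(VS (fun j => aff (P j)) w e) - 1, by omega⟩
  have hone : 1 ≤ n + nm S w := by
    rcases hne with h | ⟨j, hj1, hj2⟩
    · omega
    · have h1 : (if j ∈ S then 0 else min (w j) 2) ≤ nm S w :=
        Finset.single_le_sum (f := fun j => if j ∈ S then 0 else min (w j) 2)
          (fun _ _ => Nat.zero_le _) (Finset.mem_univ j)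
      rw [if_neg hj1] at h1
      omega
  have h1 := Pool.Agent.TH167.CL.cs he S hP hG hGe hord hn hone
  have h2 : ∑ j, (if j ∈ S then 0 else w j) = nm S w + ∑ j, (if j ∈ S then 0 else w j - 2) := by
    unfold nm
    rw [← Finset.sum_add_distrib]
    refine Finset.sum_congr rfl fun j _ => ?_
    split_ifs <;> omega
  have h3 : ip e w e w = (e : ℤ) * e - ((∑ j, w j * w j : ℕ) : ℤ) := by
    unfold ip
    push_cast
    rfl
  rcases h1 with h1 | h1
  · left
    have h4 := two_chi e w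
    rw [h3, kk_cast] at h4
    have h5 : ((2 * (n + nm S w) + ∑ j, w j * w j + ∑ j, w j : ℕ) : ℤ) ≤
        ((e * e + 3 * e + 2 * ∑ j, (if j ∈ S then 0 else w j) : ℕ) : ℤ) := by exact_mod_cast h1
    have h6 : ((∑ j, (if j ∈ S then 0 else w j) : ℕ) : ℤ) =
        ((nm S w + ∑ j, (if j ∈ S then 0 else w j - 2) : ℕ) : ℤ) := by rw [h2]
    unfold sp
    rw [hn]
    rw [Nat.cast_add] at h6
    rw [Nat.cast_add, Nat.cast_add, Nat.cast_add, Nat.cast_add, Nat.cast_mul, Nat.cast_mul,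
      Nat.cast_mul, Nat.cast_mul, Nat.cast_add] at h5
    rw [Nat.cast_add]
    simp only [Nat.cast_one, Nat.cast_ofNat] at h5 h6 ⊢
    linarith
  · right
    have h5 : ((2 * (n + nm S w) + ∑ j, w j * w j : ℕ) : ℤ) ≤
        ((e * e + 2 + ∑ j, (if j ∈ S then 0 else w j) : ℕ) : ℤ) := by exact_mod_cast h1
    rw [hn, h3]
    show 2 * ((n + 1 : ℕ) : ℤ) + 2 * ((nm S w : ℕ) : ℤ) ≤ _
    rw [Nat.cast_add, Nat.cast_add, Nat.cast_add, Nat.cast_mul, Nat.cast_mul, Nat.cast_add] at h5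
    rw [Nat.cast_add]
    simp only [Nat.cast_one, Nat.cast_ofNat] at h5 ⊢
    linarith

end Pool.Agent.T9h37.DP
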