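import Pool.Agent.TH167.T3.Bound
import Pool.Agent.TH167.RD.Pos9
import Pool.Agent.N108.ZZ.FinR

set_option autoImplicit false

/-!
# Prime divisors: forgetting points
-/

namespace Pool.Agent.T9h37.DP

open MvPolynomial Pool.Agent.W609 Pool.Agent.W609.CR Pool.Agent.TH167.SH Pool.Agent.TH167.TT
  Pool.Agent.TH167.DD Pool.Agent.TH167.T3 Pool.Agent.H248R5 Pool.Agent.N108.ZZ

/-- The multiplicities at the points of `S`. -/
def rs {s : ℕ} (S : Finset (Fin s)) (w : Fin s → ℕ) : Fin s → ℕ := fun j => if j ∈ S then w j else 0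

/-- A generic point of multiplicity `m` of a prime divisor imposes at least `2 m - 1` conditions. -/
theorem drop {K : Type} [Field K] [CharZero K] [IsAlgClosed K] {r d : ℕ} (hd : 2 ≤ d)
    {P : Fin (r + 4) → Fin 2 → K}
    (hP : AlgebraicIndependent ℚ (fun ij : Fin (r + 4) × Fin 2 => P ij.1 ij.2))
    {G : MvPolynomial (Fin 3) K} (hG : Irreducible G) (S : Finset (Fin (r + 4))) :
    ∀ (N : ℕ) (w : Fin (r + 4) → ℕ), ∑ j, (if j ∈ S then 0 else w j) ≤ N →
      G ∈ VS (fun j => aff (P j)) w d →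
      Module.finrank K ↥(VS (fun j => aff (P j)) w d) + ∑ j, (if j ∈ S then 0 else 2 * w j - 1) ≤
        Module.finrank K ↥(VS (fun j => aff (P j)) (rs S w) d) := by
  classical
  intro N
  induction N with
  | zero =>
    intro w hN _
    have h0 : ∀ j, j ∉ S → w j = 0 := by
      intro j hj
      have h1 := Finset.sum_eq_zero_iff.1 (Nat.le_zero.1 hN) j (Finset.mem_univ j)
      rwa [if_neg hj] at h1
    have h1 : rs S w = w := by
      funext j
      unfold rs
      split_ifs with h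
      · rfl
      · exact (h0 j h).symm
    rw [h1, Finset.sum_eq_zero (fun j _ => by
      split_ifs with h
      · rfl
      · rw [h0 j h]
        rfl)]
    simp
  | succ N ih =>
    intro w hN hGm
    by_cases hz : ∀ j, j ∉ S → w j = 0
    · refine ih w ?_ hGm
      rw [Finset.sum_eq_zero (fun j _ => by
        split_ifs with h
        · rfl
        · exact hz j h)]
      exact Nat.zero_le _
    push Not at hz
    obtain ⟨j0, hj0, hw0⟩ := hz
    have hpos := pos_of_mem hGm hG.ne_zero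
    obtain ⟨n, hn⟩ : ∃ n, Module.finrank K ↥(VS (fun j => aff (P j)) w d) = n + 1 :=
      ⟨Module.finrank K ↥(VS (fun j => aff (P j)) w d) - 1, by omega⟩
    have h1 := spread hd hG n r w S P hGm hn K P hP hn
    have hal : ∀ j, al S w j ≤ w j := fun j => by
      unfold al
      split_ifs <;> omega
    have h2 := ih (al S w) (by
      have h3 : ∑ j, (if j ∈ S then 0 else al S w j) + 1 ≤ ∑ j, (if j ∈ S then 0 else w j) := by
        have h4 : ∑ j, (if j ∈ S then 0 else al S w j) < ∑ j, (if j ∈ S then 0 else w j) := by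
          refine Finset.sum_lt_sum (fun j _ => ?_) ⟨j0, Finset.mem_univ _, ?_⟩
          · split_ifs
            · exact le_rfl
            · exact hal j
          · rw [if_neg hj0, if_neg hj0]
            unfold al
            rw [if_neg hj0]
            omega
        omega
      omega) (vs_le hal hGm)
    have h3 : rs S (al S w) = rs S w := by
      funext j
      unfold rs al
      split_ifs <;> rfl
    rw [h3] at h2
    have h4 : ∑ j, (if j ∈ S then 0 else 2 * w j - 1) =
        nm S w + ∑ j, (if j ∈ S then 0 else 2 * al S w j - 1) := by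
      unfold nm
      rw [← Finset.sum_add_distrib]
      refine Finset.sum_congr rfl fun j _ => ?_
      unfold al
      split_ifs
      · rfl
      · omega
    omega

/-- Prime divisors with `K C ≤ κ`, if all standard classes with `K D ≤ κ` are nonspecial. -/
theorem prime_stm {κ : ℕ} (hS : Stm κ) {K : Type} [Field K] [CharZero K] {r e : ℕ}
    {w : Fin (r + 4) → ℕ} {P : Fin (r + 4) → Fin 2 → K}
    (hP : AlgebraicIndependent ℚ (fun ij : Fin (r + 4) × Fin 2 => P ij.1 ij.2))
    {G : MvPolynomial (Fin 3) K} (hG : Irreducible G) (hGe : G.IsHomogeneous e)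
    (hord : ∀ j, Ord (aff (P j)) (w j) G) (hk : -(κ : ℤ) ≤ kk e w) :
    (Module.finrank K ↥(VS (fun j => aff (P j)) w e) : ℤ) = chi e w := by
  rcases irr_red e P hP w G hG hGe hord with ⟨c1, c2, c3⟩ |
    ⟨P1, e1, u, G1, b1, b2, b3, b4, b5, b6, b7, b8, b9⟩
  · exact c1
  · obtain ⟨q1, q2, q3⟩ := quad_inv b5
    simp only at q1 q2 q3
    have hdim := hS r K P1 b1 e1 u b6 (by rw [q2]; exact hk)
    have hpos := pos_of_mem ((mem_VS _ _ _ _).2 ⟨b3, fun j => (b4 j).1⟩) b2.ne_zero
    rw [← b9, ← q1]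
    omega

/-- Nonspecial prime divisors with negative square are `(-1)`-curves. -/
theorem neg_of_nonsp {K : Type} [Field K] [CharZero K] {r e : ℕ}
    {w : Fin (r + 4) → ℕ} {P : Fin (r + 4) → Fin 2 → K}
    (hP : AlgebraicIndependent ℚ (fun ij : Fin (r + 4) × Fin 2 => P ij.1 ij.2))
    {G : MvPolynomial (Fin 3) K} (hG : Irreducible G) (hGe : G.IsHomogeneous e)
    (hord : ∀ j, Ord (aff (P j)) (w j) G)
    (hdim0 : (Module.finrank K ↥(VS (fun j => aff (P j)) w e) : ℤ) = chi e w)
    (hneg : ip e w e w < 0) : ip e w e w = -1 ∧ kk e w = 1 := by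
  rcases irr_red e P hP w G hG hGe hord with ⟨c1, c2, c3⟩ |
    ⟨P1, e1, u, G1, b1, b2, b3, b4, b5, b6, b7, b8, b9⟩
  · exact ⟨c2, c3⟩
  · obtain ⟨q1, q2, q3⟩ := quad_inv b5
    simp only at q1 q2 q3
    exfalso
    have hdim' : (Module.finrank K ↥(VS (fun j => aff (P1 j)) u e1) : ℤ) = chi e1 u := by
      rw [b9, q1]
      exact hdim0
    have hneg' : e1 ^ 2 < ∑ j, u j ^ 2 := by
      rw [← q3] at hneg
      unfold ip at hneg
      have : ((e1 ^ 2 : ℕ) : ℤ) < ((∑ j, u j ^ 2 : ℕ) : ℤ) := by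
        push_cast
        have h5 : ∑ j, (u j : ℤ) * u j = ∑ j, (u j : ℤ) ^ 2 :=
          Finset.sum_congr rfl fun j _ => by ring
        rw [h5] at hneg
        linarith [sq (e1 : ℤ)]
      exact_mod_cast this
    have hone := Pool.Agent.TH167.Neg.neg_dim P1 (inj_of_alg b1) u G1 e1 b2 b3 b4 hneg'
    rw [hone] at hdim'
    have h2χ := two_chi e1 u
    rw [← hdim'] at h2χ
    rw [← q3] at hneg
    have hkk : 0 < kk e1 u := by
      push_cast at h2χ
      linarith
    have hsum : ∑ j, u j ≤ 3 * e1 := by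
      unfold kk at hkk
      have : ((∑ j, u j : ℕ) : ℤ) ≤ ((3 * e1 : ℕ) : ℤ) := by
        push_cast
        linarith
      exact_mod_cast this
    have h6 := red_ip b6 (fun j => van_le b2.ne_zero b3 (b4 j).1) hsum
    linarith

/-- Enumeration of a set. -/
theorem exists_enum {s : ℕ} (S : Finset (Fin s)) {m : ℕ} (hm : S.card = m) :
    ∃ e : Fin m → Fin s, Function.Injective e ∧ ∀ j, j ∈ S ↔ ∃ i, e i = j := by
  subst hm
  refine ⟨S.orderEmbOfFin rfl, (S.orderEmbOfFin rfl).injective, fun j => ?_⟩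
  have h := S.range_orderEmbOfFin rfl
  constructor
  · intro hj
    have : j ∈ Set.range (S.orderEmbOfFin rfl) := by
      rw [h]
      exact hj
    exact this
  · rintro ⟨i, rfl⟩
    exact S.orderEmbOfFin_mem rfl i

theorem sum_enum {s m : ℕ} {S : Finset (Fin s)} {e : Fin m → Fin s} (he : Function.Injective e)
    (hS : ∀ j, j ∈ S ↔ ∃ i, e i = j) (f : Fin s → ℕ) : ∑ i, f (e i) = ∑ j ∈ S, f j := by
  classical
  rw [← Finset.sum_image (fun a _ b _ h => he h) (s := Finset.univ) (f := f) (g := e)]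
  refine Finset.sum_congr ?_ fun _ _ => rfl
  ext j
  rw [hS, Finset.mem_image]
  simp

theorem vs_enum {K : Type} [Field K] {s m : ℕ} {S : Finset (Fin s)} {e : Fin m → Fin s}
    (hS : ∀ j, j ∈ S ↔ ∃ i, e i = j) (P : Fin s → Fin 2 → K) (w : Fin s → ℕ) (d : ℕ) :
    VS (fun j => aff (P j)) (rs S w) d = VS (fun i => aff (P (e i))) (fun i => w (e i)) d := by
  classical
  ext f
  rw [mem_VS, mem_VS]
  refine and_congr_right fun _ => ⟨fun h i => ?_, fun h j => ?_⟩
  · have h1 := h (e i)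
    unfold rs at h1
    rwa [if_pos ((hS _).2 ⟨i, rfl⟩)] at h1
  · unfold rs
    split_ifs with hj
    · obtain ⟨i, rfl⟩ := (hS j).1 hj
      exact h i
    · exact van_zero _ _

theorem chi_enum {s m : ℕ} {S : Finset (Fin s)} {e : Fin m → Fin s} (he : Function.Injective e)
    (hS : ∀ j, j ∈ S ↔ ∃ i, e i = j) (w : Fin s → ℕ) (d : ℕ) :
    chi d (fun i => w (e i)) = ((d + 2).choose 2 : ℤ) - ((∑ j ∈ S, (w j + 1).choose 2 : ℕ) : ℤ) := by
  rw [chi_cast, sum_enum he hS fun j => (w j + 1).choose 2]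

/-- A set of at least four points with the same bound. -/
theorem exists_four {K : Type} [Field K] [CharZero K] {r e κ : ℕ} (hκ : 3 ≤ κ)
    {w : Fin (r + 4) → ℕ} {P : Fin (r + 4) → Fin 2 → K}
    (hP : AlgebraicIndependent ℚ (fun ij : Fin (r + 4) × Fin 2 => P ij.1 ij.2))
    {G : MvPolynomial (Fin 3) K} (hG : Irreducible G) (hGe : G.IsHomogeneous e)
    (hord : ∀ j, Ord (aff (P j)) (w j) G) (S : Finset (Fin (r + 4)))
    (hsum : ∑ j ∈ S, w j ≤ 3 * e + κ) :
    ∃ T : Finset (Fin (r + 4)), S ⊆ T ∧ 4 ≤ T.card ∧ ∑ j ∈ T, w j ≤ 3 * e + κ := by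
  classical
  rcases Nat.lt_or_ge S.card 4 with h | h
  · obtain ⟨T, hST, hT⟩ := Finset.exists_superset_card_eq (show S.card ≤ 4 by omega)
      (show 4 ≤ Fintype.card (Fin (r + 4)) by rw [Fintype.card_fin]; omega)
    refine ⟨T, hST, hT.ge, ?_⟩
    rcases Pool.Agent.TH167.RD.pos9 (S := T) (by omega) hP hG hGe hord with h1 | ⟨h1, -⟩
    · omega
    · have h2 : ∑ j ∈ T, w j ≤ T.card • 3 := Finset.sum_le_card_nsmul T w 3 fun j _ => by
        have := van_le hG.ne_zero hGe (hord j).1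
        omega
      rw [hT] at h2
      simp only [smul_eq_mul] at h2
      omega
  · exact ⟨S, Finset.Subset.refl _, h, hsum⟩

theorem ch_two (x : ℕ) : (x + 1).choose 2 = (2 * x - 1) + (x - 1).choose 2 := by
  rcases Nat.eq_zero_or_pos x with rfl | hx
  · rfl
  · obtain ⟨y, rfl⟩ : ∃ y, x = y + 1 := ⟨x - 1, by omega⟩
    have h1 : (y + 1 + 1).choose 2 = (y + 1).choose 1 + (y + 1).choose 2 := Nat.choose_succ_succ' _ _
    have h2 : (y + 1).choose 2 = y.choose 1 + y.choose 2 := Nat.choose_succ_succ' _ _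
    rw [Nat.choose_one_right] at h1 h2
    rw [Nat.add_sub_cancel]
    omega

/-- The bound for the superabundance. -/
theorem super {κ : ℕ} (hSt : Stm κ) (hκ : 3 ≤ κ) {K : Type} [Field K] [CharZero K] [IsAlgClosed K]
    {r e : ℕ} {w : Fin (r + 4) → ℕ} {P : Fin (r + 4) → Fin 2 → K}
    (hP : AlgebraicIndependent ℚ (fun ij : Fin (r + 4) × Fin 2 => P ij.1 ij.2))
    {G : MvPolynomial (Fin 3) K} (hG : Irreducible G) (hGe : G.IsHomogeneous e)
    (hord : ∀ j, Ord (aff (P j)) (w j) G) (S : Finset (Fin (r + 4)))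
    (hsum : ∑ j ∈ S, w j ≤ 3 * e + κ) :
    (Module.finrank K ↥(VS (fun j => aff (P j)) w e) : ℤ) ≤
      chi e w + ((∑ j, (if j ∈ S then 0 else (w j - 1).choose 2) : ℕ) : ℤ) := by
  classical
  rcases Nat.lt_or_ge e 2 with he | he
  · have he0 := deg_pos hG hGe
    have h1 := (prime9 (S := ∅) (by simp) (fun j _ => by
      have := van_le hG.ne_zero hGe (hord j).1
      omega) hP hG hGe hord).1
    rw [h1]
    have : (0 : ℤ) ≤ ((∑ j, (if j ∈ S then 0 else (w j - 1).choose 2) : ℕ) : ℤ) :=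
      Int.natCast_nonneg _
    linarith
  obtain ⟨T, hST, hT4, hTs⟩ := exists_four hκ hP hG hGe hord S hsum
  obtain ⟨m, hm⟩ : ∃ m, T.card = m + 4 := ⟨T.card - 4, by omega⟩
  obtain ⟨en, hen, henT⟩ := exists_enum T hm
  have hGm : G ∈ VS (fun j => aff (P j)) w e := (mem_VS _ _ _ _).2 ⟨hGe, fun j => (hord j).1⟩
  have h1 := drop he hP hG T (∑ j, (if j ∈ T then 0 else w j)) w le_rfl hGm
  have hP' : AlgebraicIndependent ℚ (fun ij : Fin (m + 4) × Fin 2 => P (en ij.1) ij.2) :=
    hP.comp (fun ij : Fin (m + 4) × Fin 2 => (en ij.1, ij.2)) (by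
      rintro ⟨a, b⟩ ⟨a', b'⟩ h
      simp only [Prod.mk.injEq] at h
      exact Prod.ext (hen h.1) h.2)
  have h2 := prime_stm hSt (P := fun i => P (en i)) (w := fun i => w (en i)) hP' hG hGe
    (fun i => hord (en i)) (by
      rw [kk_cast, sum_enum hen henT w]
      have : ((∑ j ∈ T, w j : ℕ) : ℤ) ≤ ((3 * e + κ : ℕ) : ℤ) := by exact_mod_cast hTs
      push_cast at this ⊢
      linarith)
  rw [← vs_enum henT P w e, chi_enum hen henT] at h2
  rw [chi_cast]
  have h3 : ∑ j, (w j + 1).choose 2 + ∑ j, (if j ∈ T then 0 else (w j - 1).choose 2) =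
      ∑ j ∈ T, (w j + 1).choose 2 + ∑ j, (if j ∈ T then 0 else 2 * w j - 1) +
        2 * ∑ j, (if j ∈ T then 0 else (w j - 1).choose 2) := by
    have h4 : ∑ j ∈ T, (w j + 1).choose 2 = ∑ j, (if j ∈ T then (w j + 1).choose 2 else 0) := by
      rw [← Finset.sum_filter]
      congr 1
      ext j
      simp
    rw [h4, Finset.mul_sum, ← Finset.sum_add_distrib, ← Finset.sum_add_distrib,
      ← Finset.sum_add_distrib]
    refine Finset.sum_congr rfl fun j _ => ?_
    have h5 := ch_two (w j)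
    split_ifs <;> omega
  have h5 : ∑ j, (if j ∈ T then 0 else (w j - 1).choose 2) ≤
      ∑ j, (if j ∈ S then 0 else (w j - 1).choose 2) := by
    refine Finset.sum_le_sum fun j _ => ?_
    by_cases hjT : j ∈ T
    · rw [if_pos hjT]
      exact Nat.zero_le _
    · rw [if_neg hjT, if_neg (fun h => hjT (hST h))]
  omega

end Pool.Agent.T9h37.DP
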